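import Pool.Agent.helper47.MF.Sec4
import Pool.Agent.MF.JC
import Pool.Agent.MF.Frame

/-!
# MP_141f81, Section 4: the frame `N × (Fin s → ZMod 2)` gives the hypotheses of `sec4`
-/

set_option autoImplicit false

namespace Pool.Agent.helper47.MF

open Finset
open Pool.Agent.MF (Mat Exact ExactR cls cls_eq_iff card_image_le_of_det count_image count_cls)

section agree

variable {V : Type} [AddCommGroup V] [Fintype V] [DecidableEq V] {M : Mat V} {n : ℕ}
  {R : Finset (V → Fin n)}

theorem exactR (hR : Exact M R) : ExactR M.rk R := hR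

theorem agree_add (hR : Exact M R) {ρ σ : V → Fin n} (hρ : ρ ∈ R) (hσ : σ ∈ R) {u v : V}
    (hu : ρ u = σ u) (hv : ρ v = σ v) : ρ (u + v) = σ (u + v) := by
  refine hR {u, v} (u + v) ?_ ρ hρ σ hσ ?_
  · have h1 : insert (u + v) ({u, v} : Finset V) = {u, v, u + v} := by
      ext x
      simp only [mem_insert, mem_singleton]
      tauto
    show M.rk (insert (u + v) {u, v}) = M.rk {u, v}
    rw [h1]
    exact M.rk_add u v
  · intro w hw
    simp only [mem_insert, mem_singleton] at hw
    rcases hw with rfl | rfl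
    · exact hu
    · exact hv

theorem agree_zero (hR : Exact M R) {ρ σ : V → Fin n} (hρ : ρ ∈ R) (hσ : σ ∈ R) : ρ 0 = σ 0 := by
  refine hR ∅ 0 ?_ ρ hρ σ hσ ?_
  · show M.rk (insert 0 ∅) = M.rk ∅
    rw [insert_empty, M.rk_zero, M.rk_empty]
  · intro w hw
    exact absurd hw (notMem_empty w)

end agree

section frame

variable {N : Type} [AddCommGroup N] [Fintype N] [DecidableEq N] {s : ℕ}

/-- the far role `i` -/
def frF (N : Type) [AddCommGroup N] {s : ℕ} (i : Fin s) : N × (Fin s → ZMod 2) :=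
  (0, Pi.single i 1)

/-- the near roles without zero -/
def NrF (N : Type) [AddCommGroup N] [Fintype N] [DecidableEq N] (s : ℕ) :
    Finset (N × (Fin s → ZMod 2)) :=
  (univ.filter fun v : N => v ≠ 0).image fun v => (v, 0)

/-- the base roles -/
def basF (N : Type) [AddCommGroup N] {s : ℕ} (hs : 3 ≤ s) (k : Fin (s - 3)) :
    N × (Fin s → ZMod 2) := frF N ⟨k.1 + 3, by omega⟩

/-- the roles `f 0`, `f 1`, `f 2 = f 0 + f 1` -/
def fF (N : Type) [AddCommGroup N] {s : ℕ} (hs : 3 ≤ s) : Fin 3 → N × (Fin s → ZMod 2) :=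
  ![frF N ⟨0, by omega⟩, frF N ⟨1, by omega⟩, frF N ⟨0, by omega⟩ + frF N ⟨1, by omega⟩]

/-- the role `g` -/
def gF (N : Type) [AddCommGroup N] {s : ℕ} (hs : 3 ≤ s) : N × (Fin s → ZMod 2) :=
  frF N ⟨2, by omega⟩

variable {M : Mat (N × (Fin s → ZMod 2))} {n : ℕ} {R : Finset (N × (Fin s → ZMod 2) → Fin n)}

theorem near_r_ge : M.rk (NrF N s) ≤ M.near.r :=
  M.rk_mono (image_subset_image (filter_subset _ _))

theorem rk_one {v : N × (Fin s → ZMod 2)} (hv : v ∈ NrF N s) : M.rk {v} = 1 := by
  obtain ⟨w, hw, rfl⟩ := mem_image.mp hv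
  refine M.rk_single _ fun h => (mem_filter.mp hw).2 ?_
  exact (Prod.ext_iff.mp h).1

theorem rowSys_frame (hs : 3 ≤ s) (hn : 0 < n) (hR : Exact M R) :
    RowSys R (NrF N s) (basF N hs) (fF N hs) (gF N hs) M.near.r where
  rpos v hv := by
    have h0 : M.rk {v} = 1 := rk_one hv
    have h1 : M.rk {v} ≤ M.near.r := (M.rk_mono (singleton_subset_iff.mpr hv)).trans near_r_ge
    omega
  K0 := by
    have h1 := count_cls M.rk (fun _ _ h => M.rk_mono h) hn (exactR hR) R Subset.rfl (NrF N s)
    refine le_trans ?_ (h1.trans (Nat.pow_le_pow_right hn near_r_ge))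
    convert card_image_le_of_det R (nearP (NrF N s)) (cls (NrF N s)) ?_
    intro x _ y _ hxy
    rw [cls_eq_iff] at hxy
    exact funext fun u => hxy u u.2
  K1 v hv x := by
    have h1 := count_image M.rk (fun _ _ h => M.rk_mono h) hn (exactR hR)
      (R.filter fun ρ => ρ v = x) (filter_subset _ _) {v} (NrF N s) (by
        intro ρ hρ σ hσ u hu
        rw [mem_singleton] at hu
        rw [hu]
        exact (mem_filter.mp hρ).2.trans (mem_filter.mp hσ).2.symm)
    have h2 : ({v} : Finset (N × (Fin s → ZMod 2))) ∪ NrF N s = NrF N s :=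
      union_eq_right.mpr (singleton_subset_iff.mpr hv)
    rw [h2, rk_one hv] at h1
    refine le_trans ?_ (h1.trans (Nat.pow_le_pow_right hn (Nat.sub_le_sub_right near_r_ge 1)))
    convert card_image_le_of_det (R.filter fun ρ => ρ v = x) (nearP (NrF N s))
      (cls (NrF N s)) ?_
    intro x _ y _ hxy
    rw [cls_eq_iff] at hxy
    exact funext fun u => hxy u u.2
  K2 ρ hρ σ hσ h0 h1 h2 h3 h4 := by
    have hnear : ∀ v : N, ρ (v, 0) = σ (v, 0) := by
      intro v
      by_cases hv : v = 0
      · subst hv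
        exact agree_zero hR hρ hσ
      · have h5 : ((v, 0) : N × (Fin s → ZMod 2)) ∈ NrF N s :=
          mem_image_of_mem _ (mem_filter.mpr ⟨mem_univ _, hv⟩)
        exact congrFun h0 ⟨(v, 0), h5⟩
    have hfar : ∀ i : Fin s, ρ (frF N i) = σ (frF N i) := by
      rintro ⟨i, hi⟩
      match i, hi with
      | 0, hi => exact h1
      | 1, hi => exact h2
      | 2, hi => exact h3
      | i + 3, hi => exact h4 ⟨i, by omega⟩
    have hf2 : ∀ y : Fin s → ZMod 2, ρ (0, y) = σ (0, y) := by
      intro y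
      have h5 : (∑ i, ((0 : N), (Pi.single i (y i) : Fin s → ZMod 2))) = (0, y) := by
        refine Prod.ext ?_ ?_
        · rw [Prod.fst_sum]
          simp
        · rw [Prod.snd_sum]
          exact univ_sum_single y
      rw [← h5]
      refine sum_induction _ (fun z => ρ z = σ z) (fun a b ha hb => agree_add hR hρ hσ ha hb)
        (agree_zero hR hρ hσ) ?_
      intro i _
      have h6 : ∀ z : ZMod 2, z = 0 ∨ z = 1 := by decide
      rcases h6 (y i) with h | h
      · show ρ (0, Pi.single i (y i)) = σ (0, Pi.single i (y i))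
        rw [h, Pi.single_zero]
        exact agree_zero hR hρ hσ
      · show ρ (0, Pi.single i (y i)) = σ (0, Pi.single i (y i))
        rw [h]
        exact hfar i
    refine funext fun v => ?_
    have h7 : v = (v.1, 0) + (0, v.2) := by
      refine Prod.ext ?_ ?_
      · show v.1 = v.1 + 0
        rw [add_zero]
      · show v.2 = 0 + v.2
        rw [zero_add]
    rw [h7]
    exact agree_add hR hρ hσ (hnear _) (hf2 _)
  F3 ρ hρ σ hσ i hi hi1 k := by
    have key : ∀ a b : N × (Fin s → ZMod 2), a + (a + b) = b := by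
      intro a b
      rw [← add_assoc, M.two, zero_add]
    have h01 : ρ (fF N hs 0) = σ (fF N hs 0) ∧ ρ (fF N hs 1) = σ (fF N hs 1) := by
      have e2 : fF N hs 2 = fF N hs 0 + fF N hs 1 := rfl
      match i, hi, hi1 with
      | 0, hi, hi1 => exact ⟨hi, hi1⟩
      | 1, hi, hi1 =>
        have hi1' : ρ (fF N hs 2) = σ (fF N hs 2) := hi1
        refine ⟨?_, hi⟩
        have h := agree_add hR hρ hσ hi hi1'
        rwa [e2, add_comm (fF N hs 0), key] at h
      | 2, hi, hi1 =>
        have hi1' : ρ (fF N hs 0) = σ (fF N hs 0) := hi1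
        refine ⟨hi1', ?_⟩
        have h := agree_add hR hρ hσ hi1' hi
        rwa [e2, key] at h
    match k with
    | 0 => exact h01.1
    | 1 => exact h01.2
    | 2 => exact agree_add hR hρ hσ h01.1 h01.2

theorem card_frame (hs : 3 ≤ s) (hr : M.r = M.near.r + s) {c : ℝ}
    (hc : c * (n : ℝ) ^ M.r ≤ (R.card : ℝ)) :
    c * (n : ℝ) ^ (M.near.r + 3 + (s - 3)) ≤ (R.card : ℝ) := by
  have h1 : M.near.r + 3 + (s - 3) = M.r := by omega
  rw [h1]
  exact hc

end frame

end Pool.Agent.helper47.MF
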