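import Mathlib

/-!
# MP_141f81, Section 4 (A): near rows with many good rows over them
-/

set_option autoImplicit false

namespace Pool.Agent.helper47.MF

open Finset Classical

/-- **Near rows.**  `GOOD` is a set of rows with at least `d n^(r+3)` elements, a row is determined
by its near part, its far pair and its `g`-symbol.  At least `(d/2) n^r` near parts have at least
`(d/2) n^2` far pairs over them. -/
theorem near_rows {P Nr T : Type*} [DecidableEq Nr] [DecidableEq T] {n r : ℕ} {d : ℝ} (GOOD : Finset P) (near : P → Nr)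
    (far : P → T) (g : P → Fin n) (hd : 0 < d)
    (hinj : Set.InjOn (fun ρ => (near ρ, far ρ, g ρ)) (GOOD : Set P))
    (hfar : (GOOD.image far).card ≤ n ^ 2) (hnear : (GOOD.image near).card ≤ n ^ r)
    (hG : d * (n : ℝ) ^ (r + 3) ≤ (GOOD.card : ℝ)) (hn : 0 < n) :
    ∃ S : Finset Nr, S ⊆ GOOD.image near ∧ d / 2 * (n : ℝ) ^ r ≤ (S.card : ℝ) ∧
      (∀ π ∈ S, d / 2 * (n : ℝ) ^ 3 ≤ ((GOOD.filter fun ρ => near ρ = π).card : ℝ)) ∧
      ∀ π ∈ S, d / 2 * (n : ℝ) ^ 2 ≤
        (((GOOD.filter fun ρ => near ρ = π).image far).card : ℝ) := by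
  obtain ⟨S, hS⟩ : ∃ S, S = (GOOD.image near).filter fun π =>
      d / 2 * (n : ℝ) ^ 3 ≤ ((GOOD.filter fun ρ => near ρ = π).card : ℝ) := ⟨_, rfl⟩
  have hn' : (0 : ℝ) < n := by exact_mod_cast hn
  have hfib : ∀ π, ((GOOD.filter fun ρ => near ρ = π).card : ℝ) ≤ (n : ℝ) *
      (((GOOD.filter fun ρ => near ρ = π).image far).card : ℝ) := by
    intro π
    have h1 : (GOOD.filter fun ρ => near ρ = π).card ≤
        (((GOOD.filter fun ρ => near ρ = π).image far) ×ˢ (univ : Finset (Fin n))).card := by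
      refine card_le_card_of_injOn (fun ρ => (far ρ, g ρ)) ?_ ?_
      · intro ρ hρ
        exact mem_coe.mpr (mem_product.mpr ⟨mem_image_of_mem _ (mem_coe.mp hρ), mem_univ _⟩)
      · intro ρ hρ ρ' hρ' h
        have h2 := mem_filter.mp (mem_coe.mp hρ)
        have h3 := mem_filter.mp (mem_coe.mp hρ')
        refine hinj (mem_coe.mpr h2.1) (mem_coe.mpr h3.1) ?_
        simp only [Prod.mk.injEq] at h ⊢
        exact ⟨h2.2.trans h3.2.symm, h⟩
    rw [card_product, card_univ, Fintype.card_fin] at h1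
    calc ((GOOD.filter fun ρ => near ρ = π).card : ℝ)
        ≤ ((((GOOD.filter fun ρ => near ρ = π).image far).card * n : ℕ) : ℝ) := by exact_mod_cast h1
      _ = _ := by push_cast; ring
  have hfib3 : ∀ π, ((GOOD.filter fun ρ => near ρ = π).card : ℝ) ≤ (n : ℝ) ^ 3 := by
    intro π
    have h1 : (((GOOD.filter fun ρ => near ρ = π).image far).card : ℝ) ≤ (n : ℝ) ^ 2 := by
      have h2 : ((GOOD.filter fun ρ => near ρ = π).image far).card ≤ n ^ 2 :=
        (card_le_card (image_subset_image (filter_subset _ _))).trans hfar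
      exact_mod_cast h2
    calc _ ≤ (n : ℝ) * (n : ℝ) ^ 2 := (hfib π).trans (mul_le_mul_of_nonneg_left h1 hn'.le)
      _ = _ := by ring
  refine ⟨S, by rw [hS]; exact filter_subset _ _, ?_, ?_, ?_⟩
  · have h1 : (GOOD.card : ℝ) = ∑ π ∈ GOOD.image near,
        ((GOOD.filter fun ρ => near ρ = π).card : ℝ) := by
      rw [card_eq_sum_card_image near GOOD]
      push_cast
      rfl
    have h2 : ∑ π ∈ GOOD.image near, ((GOOD.filter fun ρ => near ρ = π).card : ℝ) ≤
        (S.card : ℝ) * (n : ℝ) ^ 3 + (n : ℝ) ^ r * (d / 2 * (n : ℝ) ^ 3) := by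
      rw [← sum_filter_add_sum_filter_not (GOOD.image near) (fun π =>
        d / 2 * (n : ℝ) ^ 3 ≤ ((GOOD.filter fun ρ => near ρ = π).card : ℝ)), ← hS]
      refine add_le_add ?_ ?_
      · calc ∑ π ∈ S, ((GOOD.filter fun ρ => near ρ = π).card : ℝ) ≤ ∑ _π ∈ S, (n : ℝ) ^ 3 :=
            sum_le_sum fun π _ => hfib3 π
          _ = _ := by rw [sum_const, nsmul_eq_mul]
      · calc _ ≤ ∑ _π ∈ (GOOD.image near).filter fun π => ¬ (d / 2 * (n : ℝ) ^ 3 ≤
              ((GOOD.filter fun ρ => near ρ = π).card : ℝ)), d / 2 * (n : ℝ) ^ 3 :=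
            sum_le_sum fun π hπ => (not_le.mp (mem_filter.mp hπ).2).le
          _ = ((((GOOD.image near).filter fun π => ¬ (d / 2 * (n : ℝ) ^ 3 ≤
              ((GOOD.filter fun ρ => near ρ = π).card : ℝ))).card : ℕ) : ℝ) *
                (d / 2 * (n : ℝ) ^ 3) := by rw [sum_const, nsmul_eq_mul]
          _ ≤ (n : ℝ) ^ r * (d / 2 * (n : ℝ) ^ 3) := by
            refine mul_le_mul_of_nonneg_right ?_ (by positivity)
            exact_mod_cast (card_le_card (filter_subset _ _)).trans hnear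
    have h3 : d * (n : ℝ) ^ (r + 3) ≤ (S.card : ℝ) * (n : ℝ) ^ 3 +
        (n : ℝ) ^ r * (d / 2 * (n : ℝ) ^ 3) := hG.trans (h1 ▸ h2)
    have h4 : d / 2 * (n : ℝ) ^ r * (n : ℝ) ^ 3 ≤ (S.card : ℝ) * (n : ℝ) ^ 3 := by
      have h5 : d * (n : ℝ) ^ (r + 3) = d / 2 * (n : ℝ) ^ r * (n : ℝ) ^ 3 +
        (n : ℝ) ^ r * (d / 2 * (n : ℝ) ^ 3) := by rw [pow_add]; ring
      linarith
    exact le_of_mul_le_mul_right h4 (by positivity)
  · intro π hπ
    rw [hS] at hπ
    exact (mem_filter.mp hπ).2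
  · intro π hπ
    rw [hS] at hπ
    have h1 := ((mem_filter.mp hπ).2).trans (hfib π)
    have h2 : d / 2 * (n : ℝ) ^ 2 * n ≤
      (((GOOD.filter fun ρ => near ρ = π).image far).card : ℝ) * n := by
      calc d / 2 * (n : ℝ) ^ 2 * n = d / 2 * (n : ℝ) ^ 3 := by ring
        _ ≤ _ := h1
        _ = _ := mul_comm _ _
    exact le_of_mul_le_mul_right h2 hn'

end Pool.Agent.helper47.MF
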