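import Pool.Agent.helper47.MF.Inst
import Pool.Agent.helper47.MF.Near
import Pool.Agent.helper62.MF.Sel
import Pool.Agent.helper62.MF.Clean

/-!
# MP_141f81, Section 4: the cleaning theorem in the form used by the prism lemma
-/

set_option autoImplicit false

namespace Pool.Agent.helper47.MF

open Finset Classical

open Pool.Agent.helper62.MF (sel clean lnk walks dC dC_pos)

/-- the link of the near letter `(v, x)` in the rows through the base row `w` -/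
def Lk {U : Type} {n m : ℕ} (R : Finset (U → Fin n)) (Nr : Finset U) (bas : Fin m → U)
    (f : Fin 3 → U) (g : U) (w : Fin m → Fin n) (v : Nr) (x : Fin n) :
    Fin 3 × Fin n → Fin n → Prop :=
  lnk (Rw R bas w) (fun (v : Nr) ρ => ρ v) (fun i ρ => ρ (f i)) (fun ρ => ρ g) v x


/-- far pairs over the near row `π` all of whose colours are hubs at all near letters of `π` -/
noncomputable def FarP {U : Type} {n m : ℕ} (R : Finset (U → Fin n)) (Nr : Finset U)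
    (bas : Fin m → U) (f : Fin 3 → U) (w : Fin m → Fin n)
    (Hub : Nr → Fin n → Finset (Fin 3 × Fin n)) (π : Nr → Fin n) : Finset (Fin n × Fin n) :=
  univ.filter fun t => ∃ ρ ∈ Rw R bas w, nearP Nr ρ = π ∧ ρ (f 0) = t.1 ∧ ρ (f 1) = t.2 ∧
    ∀ v i, (i, ρ (f i)) ∈ Hub v (ρ v)

theorem sec4a {U : Type} {n m : ℕ} (hn : 0 < n) {R : Finset (U → Fin n)} {Nr : Finset U}
    {bas : Fin m → U} {f : Fin 3 → U} {g : U} {r : ℕ} (h : RowSys R Nr bas f g r) {c : ℝ}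
    (hc : 0 < c) (hR : c * (n : ℝ) ^ (r + 3 + m) ≤ (R.card : ℝ))
    {T : Type*} [Fintype T] {α : T → Type*} (𝒜 : ∀ τ, Finset (α τ))
    (rel : ∀ τ, α τ → (Fin m → Fin n) → Prop) (γ : T → ℝ) (hγ : ∀ τ, 0 < γ τ) (D : T → ℝ)
    (hD : ∀ τ, ((𝒜 τ).card : ℝ) ≤ D τ) :
    ∃ w : Fin m → Fin n,
      c / 2 * (n : ℝ) ^ (r + 3) ≤ ((Rw R bas w).card : ℝ) ∧ 
      (∀ τ, (((𝒜 τ).filter fun a => rel τ a w ∧
        (((univ.filter fun w' => rel τ a w').card : ℕ) : ℝ) < γ τ * (n : ℝ) ^ m).card : ℝ) ≤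
          2 * Fintype.card T / c * γ τ * D τ) := by
  have hn' : (0 : ℝ) < n := by exact_mod_cast hn
  have h1 : ∑ w : Fin m → Fin n, ((Rw R bas w).card : ℝ) = (R.card : ℝ) := by
    rw [← sum_card_Rw (R := R) (bas := bas)]
    push_cast
    rfl
  have h2 : c * (n : ℝ) ^ m * (n : ℝ) ^ (r + 3) ≤ ∑ w : Fin m → Fin n, ((Rw R bas w).card : ℝ) := by
    rw [h1]
    calc c * (n : ℝ) ^ m * (n : ℝ) ^ (r + 3) = c * (n : ℝ) ^ (r + 3 + m) := by
          rw [pow_add (n : ℝ) (r + 3) m]; ring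
      _ ≤ _ := hR
  have h3 : (Fintype.card (Fin m → Fin n) : ℝ) ≤ (n : ℝ) ^ m := by
    rw [Fintype.card_fun, Fintype.card_fin, Fintype.card_fin]; push_cast; exact le_rfl
  have h4 : ∀ w, ((Rw R bas w).card : ℝ) ≤ (n : ℝ) ^ (r + 3) := fun w => by
    have := card_Rw h w
    exact_mod_cast this
  exact sel 𝒜 rel ((n : ℝ) ^ m) ((n : ℝ) ^ (r + 3)) c (by positivity) h3 (by positivity) hc
    (fun w => ((Rw R bas w).card : ℝ)) h4 h2 γ hγ D hD
theorem sec4b1 {U : Type} {n m : ℕ} (hn : 0 < n) {R : Finset (U → Fin n)} {Nr : Finset U}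
    {bas : Fin m → U} {f : Fin 3 → U} {g : U} {r : ℕ} (h : RowSys R Nr bas f g r) {c : ℝ}
    (hc : 0 < c) (w : Fin m → Fin n) (hsize : c * (n : ℝ) ^ (r + 3) ≤ ((Rw R bas w).card : ℝ)) :
    ∃ Hub : Nr → Fin n → Finset (Fin 3 × Fin n),
        (∀ v x, ∀ b ∈ Hub v x, ∀ b' ∈ Hub v x,
          dC c (Fintype.card Nr) * (n : ℝ) ^ 3 ≤
            ((walks (Lk R Nr bas f g w v x) b b').card : ℝ)) ∧
       dC c (Fintype.card Nr) * (n : ℝ) ^ (r + 3) ≤ (((Rw R bas w).filter fun ρ =>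
      ∀ (v : Nr) (i : Fin 3), (i, ρ (f i)) ∈ Hub v (ρ v)).card : ℝ) := by
  exact clean n r hn c hc (Rw R bas w)
      (fun (v : Nr) ρ => ρ v) (fun i ρ => ρ (f i)) (fun ρ => ρ g) (keyP Nr f) hsize
      (fun ρ _ ρ' _ he v => key_sym he v)
      (fun ρ hρ ρ' hρ' he i => key_f h (mem_filter.mp hρ).1 (mem_filter.mp hρ').1 he i)
      (fun ρ hρ ρ' hρ' he hg => key_inj h w hρ hρ' he hg) (by convert card_key h w)
      (fun v x i t => by convert card_through h w v x i t)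

theorem sec4b2 {U : Type} {n m : ℕ} (hn : 0 < n) {R : Finset (U → Fin n)} {Nr : Finset U}
    {bas : Fin m → U} {f : Fin 3 → U} {g : U} {r : ℕ} (h : RowSys R Nr bas f g r) {d : ℝ}
    (hd : 0 < d) (w : Fin m → Fin n) (Hub : Nr → Fin n → Finset (Fin 3 × Fin n))
    (hG0 : d * (n : ℝ) ^ (r + 3) ≤ (((Rw R bas w).filter fun ρ =>
      ∀ (v : Nr) (i : Fin 3), (i, ρ (f i)) ∈ Hub v (ρ v)).card : ℝ)) :
    ∃ S : Finset (Nr → Fin n), S ⊆ (Rw R bas w).image (nearP Nr) ∧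
        d / 2 * (n : ℝ) ^ r ≤ (S.card : ℝ) ∧
        ∀ π ∈ S, d / 2 * (n : ℝ) ^ 2 ≤ ((FarP R Nr bas f w Hub π).card : ℝ) := by
  obtain ⟨GOOD, hGOOD⟩ : ∃ GOOD, GOOD = (Rw R bas w).filter fun ρ =>
    ∀ (v : Nr) (i : Fin 3), (i, ρ (f i)) ∈ Hub v (ρ v) := ⟨_, rfl⟩
  have hGR : ∀ ρ ∈ GOOD, ρ ∈ Rw R bas w := fun ρ hρ => by
    rw [hGOOD] at hρ; exact (mem_filter.mp hρ).1
  rw [← hGOOD] at hG0
  have hinj : Set.InjOn (fun ρ : U → Fin n => (nearP Nr ρ, (ρ (f 0), ρ (f 1)), ρ g)) (GOOD : Set (U → Fin n)) := by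
    intro ρ hρ ρ' hρ' he
    simp only [Prod.mk.injEq] at he
    refine key_inj h w (hGR ρ (mem_coe.mp hρ)) (hGR ρ' (mem_coe.mp hρ')) ?_ he.2.2
    simp only [keyP, Prod.mk.injEq]
    exact ⟨he.1, he.2.1⟩
  have hfar : (GOOD.image fun ρ : U → Fin n => (ρ (f 0), ρ (f 1))).card ≤ n ^ 2 := by
    refine (card_le_card (subset_univ _)).trans ?_
    rw [card_univ, Fintype.card_prod, Fintype.card_fin, pow_two]
  have hnear : (GOOD.image (nearP Nr)).card ≤ n ^ r := by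
    refine (card_le_card (image_subset_image ?_)).trans h.K0
    intro ρ hρ
    exact (mem_filter.mp (hGR ρ hρ)).1
  obtain ⟨S, hS1, hS2, -, hS4⟩ := near_rows GOOD (nearP Nr) (fun ρ => (ρ (f 0), ρ (f 1)))
    (fun ρ => ρ g) hd hinj (by convert hfar) (by convert hnear) hG0 hn
  refine ⟨S, ?_, hS2, ?_⟩
  · intro π hπ
    obtain ⟨ρ, hρ, rfl⟩ := mem_image.mp (hS1 hπ)
    exact mem_image_of_mem _ (hGR ρ hρ)
  · intro π hπ
    refine (hS4 π hπ).trans ?_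
    refine Nat.cast_le.mpr (card_le_card fun t ht => ?_)
    obtain ⟨ρ, hρ, rfl⟩ := mem_image.mp ht
    have h1 := mem_filter.mp hρ
    have h2 := h1.1
    rw [hGOOD] at h2
    have h3 := mem_filter.mp h2
    exact mem_filter.mpr ⟨mem_univ _, ρ, h3.1, h1.2, rfl, rfl, h3.2⟩

/-- **Section 4.**  Choice of the base row `w` (typical for finitely many types of patterns), hubs
with many 4-walks, near rows with many far pairs of hubs. -/
theorem sec4 {U : Type} {n m : ℕ} (hn : 0 < n) {R : Finset (U → Fin n)} {Nr : Finset U}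
    {bas : Fin m → U} {f : Fin 3 → U} {g : U} {r : ℕ} (h : RowSys R Nr bas f g r) {c : ℝ}
    (hc : 0 < c) (hR : c * (n : ℝ) ^ (r + 3 + m) ≤ (R.card : ℝ))
    {T : Type*} [Fintype T] {α : T → Type*} (𝒜 : ∀ τ, Finset (α τ))
    (rel : ∀ τ, α τ → (Fin m → Fin n) → Prop) (γ : T → ℝ) (hγ : ∀ τ, 0 < γ τ) (D : T → ℝ)
    (hD : ∀ τ, ((𝒜 τ).card : ℝ) ≤ D τ) :
    ∃ w : Fin m → Fin n,
      (∀ τ, (((𝒜 τ).filter fun a => rel τ a w ∧
        (((univ.filter fun w' => rel τ a w').card : ℕ) : ℝ) < γ τ * (n : ℝ) ^ m).card : ℝ) ≤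
          2 * Fintype.card T / c * γ τ * D τ) ∧
      ∃ (Hub : Nr → Fin n → Finset (Fin 3 × Fin n)) (S : Finset (Nr → Fin n)),
        (∀ v x, ∀ b ∈ Hub v x, ∀ b' ∈ Hub v x,
          dC (c / 2) (Fintype.card Nr) * (n : ℝ) ^ 3 ≤
            ((walks (Lk R Nr bas f g w v x) b b').card : ℝ)) ∧
        S ⊆ (Rw R bas w).image (nearP Nr) ∧
        dC (c / 2) (Fintype.card Nr) / 2 * (n : ℝ) ^ r ≤ (S.card : ℝ) ∧
        ∀ π ∈ S, dC (c / 2) (Fintype.card Nr) / 2 * (n : ℝ) ^ 2 ≤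
          ((FarP R Nr bas f w Hub π).card : ℝ) := by
  obtain ⟨w, hw1, hw2⟩ := sec4a hn h hc hR 𝒜 rel γ hγ D hD
  obtain ⟨Hub, hC1, hC2⟩ := sec4b1 hn h (half_pos hc) w hw1
  obtain ⟨S, hS⟩ := sec4b2 hn h (dC_pos (half_pos hc) _) w Hub hC2
  exact ⟨w, hw2, Hub, S, hC1, hS⟩

end Pool.Agent.helper47.MF
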