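import Mathlib

/-!
# MP_141f81, Section 4 (B): the counting hypotheses of the cleaning theorem for the rows through a
base row `w`
-/

set_option autoImplicit false

namespace Pool.Agent.helper47.MF

open Finset Classical

/-- the part of a row in the roles `Nr` -/
def nearP {U : Type} {n : ℕ} (Nr : Finset U) (ρ : U → Fin n) : Nr → Fin n := fun v => ρ v

/-- The counting hypotheses: near roles `Nr`, far roles `f 0, f 1, f 2 = f 0 + f 1`, `g`, base roles
`bas k` (independent). -/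
structure RowSys {U : Type} {n m : ℕ} (R : Finset (U → Fin n)) (Nr : Finset U) (bas : Fin m → U)
    (f : Fin 3 → U) (g : U) (r : ℕ) : Prop where
  rpos : ∀ v ∈ Nr, 1 ≤ r
  K0 : (R.image (nearP Nr)).card ≤ n ^ r
  K1 : ∀ v ∈ Nr, ∀ x, ((R.filter fun ρ => ρ v = x).image (nearP Nr)).card ≤ n ^ (r - 1)
  K2 : ∀ ρ ∈ R, ∀ ρ' ∈ R, nearP Nr ρ = nearP Nr ρ' → ρ (f 0) = ρ' (f 0) → ρ (f 1) = ρ' (f 1) →
    ρ g = ρ' g → (∀ k, ρ (bas k) = ρ' (bas k)) → ρ = ρ'
  F3 : ∀ ρ ∈ R, ∀ ρ' ∈ R, ∀ i : Fin 3, ρ (f i) = ρ' (f i) → ρ (f (i + 1)) = ρ' (f (i + 1)) →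
    ∀ k, ρ (f k) = ρ' (f k)

/-- rows through the base row `w` -/
noncomputable def Rw {U : Type} {n m : ℕ} (R : Finset (U → Fin n)) (bas : Fin m → U)
    (w : Fin m → Fin n) : Finset (U → Fin n) := R.filter fun ρ => ∀ k, ρ (bas k) = w k

/-- the `g`-less part -/
def keyP {U : Type} {n : ℕ} (Nr : Finset U) (f : Fin 3 → U) (ρ : U → Fin n) :
    (Nr → Fin n) × Fin n × Fin n := (nearP Nr ρ, ρ (f 0), ρ (f 1))

section

variable {U : Type} {n m : ℕ} {R : Finset (U → Fin n)} {Nr : Finset U} {bas : Fin m → U}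
  {f : Fin 3 → U} {g : U} {r : ℕ}

theorem sum_card_Rw : ∑ w : Fin m → Fin n, (Rw R bas w).card = R.card := by
  have h1 : R.card = ∑ w : Fin m → Fin n, (R.filter fun ρ => (fun k => ρ (bas k)) = w).card :=
    card_eq_sum_card_fiberwise (fun ρ _ => mem_univ _)
  rw [h1]
  refine sum_congr rfl fun w _ => ?_
  congr 1
  ext ρ
  simp only [Rw, mem_filter, funext_iff]

theorem key_inj (h : RowSys R Nr bas f g r) (w : Fin m → Fin n) {ρ ρ' : U → Fin n}
    (hρ : ρ ∈ Rw R bas w) (hρ' : ρ' ∈ Rw R bas w) (he : keyP Nr f ρ = keyP Nr f ρ')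
    (hg : ρ g = ρ' g) : ρ = ρ' := by
  have h1 := mem_filter.mp hρ
  have h2 := mem_filter.mp hρ'
  simp only [keyP, Prod.mk.injEq] at he
  exact h.K2 ρ h1.1 ρ' h2.1 he.1 he.2.1 he.2.2 hg fun k => (h1.2 k).trans (h2.2 k).symm

theorem key_sym {ρ ρ' : U → Fin n} (he : keyP Nr f ρ = keyP Nr f ρ') (v : Nr) :
    ρ v = ρ' v := by
  simp only [keyP, Prod.mk.injEq] at he
  exact congrFun he.1 v

theorem key_f (h : RowSys R Nr bas f g r) {ρ ρ' : U → Fin n} (hρ : ρ ∈ R) (hρ' : ρ' ∈ R)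
    (he : keyP Nr f ρ = keyP Nr f ρ') (i : Fin 3) : ρ (f i) = ρ' (f i) := by
  simp only [keyP, Prod.mk.injEq] at he
  exact h.F3 ρ hρ ρ' hρ' 0 he.2.1 he.2.2 i

theorem card_key (h : RowSys R Nr bas f g r) (w : Fin m → Fin n) :
    ((Rw R bas w).image (keyP Nr f)).card ≤ n ^ (r + 2) := by
  calc ((Rw R bas w).image (keyP Nr f)).card
      ≤ ((R.image (nearP Nr)) ×ˢ ((univ : Finset (Fin n)) ×ˢ (univ : Finset (Fin n)))).card := by
        refine card_le_card fun p hp => ?_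
        obtain ⟨ρ, hρ, rfl⟩ := mem_image.mp hp
        exact mem_product.mpr ⟨mem_image_of_mem _ (mem_filter.mp hρ).1,
          mem_product.mpr ⟨mem_univ _, mem_univ _⟩⟩
    _ ≤ n ^ (r + 2) := by
        rw [card_product, card_product, card_univ, Fintype.card_fin, pow_add, pow_two]
        exact Nat.mul_le_mul_right _ h.K0

theorem card_Rw (h : RowSys R Nr bas f g r) (w : Fin m → Fin n) :
    (Rw R bas w).card ≤ n ^ (r + 3) := by
  calc (Rw R bas w).card
      ≤ (((Rw R bas w).image (keyP Nr f)) ×ˢ (univ : Finset (Fin n))).card := by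
        refine card_le_card_of_injOn (fun ρ => (keyP Nr f ρ, ρ g)) ?_ ?_
        · intro ρ hρ
          exact mem_coe.mpr (mem_product.mpr ⟨mem_image_of_mem _ (mem_coe.mp hρ), mem_univ _⟩)
        · intro ρ hρ ρ' hρ' he
          simp only [Prod.mk.injEq] at he
          exact key_inj h w (mem_coe.mp hρ) (mem_coe.mp hρ') he.1 he.2
    _ ≤ n ^ (r + 3) := by
        rw [card_product, card_univ, Fintype.card_fin, show r + 3 = (r + 2) + 1 from rfl, pow_succ]
        exact Nat.mul_le_mul_right _ (card_key h w)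

theorem card_through (h : RowSys R Nr bas f g r) (w : Fin m → Fin n) (v : Nr)
    (x : Fin n) (i : Fin 3) (t : Fin n) :
    ((Rw R bas w).filter fun ρ => ρ v = x ∧ ρ (f i) = t).card ≤ n ^ (r + 1) := by
  calc ((Rw R bas w).filter fun ρ => ρ v = x ∧ ρ (f i) = t).card
      ≤ (((R.filter fun ρ => ρ v = x).image (nearP Nr)) ×ˢ ((univ : Finset (Fin n)) ×ˢ
          (univ : Finset (Fin n)))).card := by
        refine card_le_card_of_injOn (fun ρ => (nearP Nr ρ, ρ (f (i + 1)), ρ g)) ?_ ?_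
        · intro ρ hρ
          have h1 := mem_filter.mp (mem_coe.mp hρ)
          exact mem_coe.mpr (mem_product.mpr ⟨mem_image_of_mem _
            (mem_filter.mpr ⟨(mem_filter.mp h1.1).1, h1.2.1⟩),
            mem_product.mpr ⟨mem_univ _, mem_univ _⟩⟩)
        · intro ρ hρ ρ' hρ' he
          have h1 := mem_filter.mp (mem_coe.mp hρ)
          have h2 := mem_filter.mp (mem_coe.mp hρ')
          have h3 := mem_filter.mp h1.1
          have h4 := mem_filter.mp h2.1
          simp only [Prod.mk.injEq] at he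
          have h5 := h.F3 ρ h3.1 ρ' h4.1 i (h1.2.2.trans h2.2.2.symm) he.2.1
          exact h.K2 ρ h3.1 ρ' h4.1 he.1 (h5 0) (h5 1) he.2.2 fun k => (h3.2 k).trans (h4.2 k).symm
    _ ≤ n ^ (r + 1) := by
        rw [card_product, card_product, card_univ, Fintype.card_fin]
        calc _ ≤ n ^ (r - 1) * (n * n) := Nat.mul_le_mul_right _ (h.K1 v v.2 x)
          _ = n ^ (r + 1) := by
            obtain ⟨q, rfl⟩ : ∃ q, r = q + 1 := ⟨r - 1, by have := h.rpos v v.2; omega⟩
            rw [Nat.add_sub_cancel]; ring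

end

end Pool.Agent.helper47.MF
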